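import Pool.Agent.Lib.MP_9dcace_rp.M8c

/-!
MP_9dcace_co: every 3-polytope with `n` vertices, each of which lies on at most three facets with four or more
vertices, has a realization in a grid of polynomial size.

The statement has the form of the frozen statement `S10413` with one more hypothesis. All simple and all simplicial
polytopes satisfy it.
-/

set_option autoImplicit false

namespace Pool.Agent.Results.MP_9dcace_co.PolynomialGridThreeFacets

/-- `B` is a face of the polytope with vertex set `V`: the set of the points of `V` on a plane `a . x = c` such that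
`a . x <= c` on `V` (for `a = 0` this includes the empty set and `V` itself) -/
def IsFace (V B : Finset (Fin 3 → ℝ)) : Prop :=
  ∃ (a : Fin 3 → ℝ) (c : ℝ), (∀ x ∈ V, ∑ i, a i * x i ≤ c) ∧ ∀ x, x ∈ B ↔ x ∈ V ∧ ∑ i, a i * x i = c

/-- `B` is a facet: a maximal proper face -/
def IsFacet (V B : Finset (Fin 3 → ℝ)) : Prop :=
  IsFace V B ∧ B ≠ V ∧ ∀ B', IsFace V B' → B ⊆ B' → B' ≠ V → B' = B

/-- every vertex lies on at most three facets which are not triangles -/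
def AtMostThree (V : Finset (Fin 3 → ℝ)) : Prop :=
  ∀ v ∈ V, ∀ Fs : Finset (Finset (Fin 3 → ℝ)),
    (∀ B ∈ Fs, IsFacet V B ∧ v ∈ B ∧ 4 ≤ B.card) → Fs.card ≤ 3

theorem result :
    ∃ f : Polynomial ℕ, ∀ V : Finset (Fin 3 → ℝ),
      (∀ v ∈ V, v ∉ convexHull ℝ ((V : Set (Fin 3 → ℝ)) \ {v})) →
      affineSpan ℝ (V : Set (Fin 3 → ℝ)) = ⊤ →
      AtMostThree V →
      ∃ g : (Fin 3 → ℝ) → (Fin 3 → ℝ),
        Set.InjOn g (V : Set (Fin 3 → ℝ)) ∧
        (∀ v ∈ V, ∀ i : Fin 3, ∃ m : ℕ, g v i = (m : ℝ) ∧ m ≤ f.eval V.card) ∧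
        affineSpan ℝ (g '' (V : Set (Fin 3 → ℝ))) = ⊤ ∧
        (∀ v ∈ V, g v ∉ convexHull ℝ (g '' ((V : Set (Fin 3 → ℝ)) \ {v}))) ∧
        ∀ S ⊆ V,
          ((∃ a : Fin 3 → ℝ, ∃ c : ℝ,
              (∀ x ∈ V, ∑ i, a i * x i ≤ c) ∧
              ∀ x ∈ V, (x ∈ S ↔ ∑ i, a i * x i = c)) ↔
           (∃ a : Fin 3 → ℝ, ∃ c : ℝ,
              (∀ x ∈ V, ∑ i, a i * g x i ≤ c) ∧
              ∀ x ∈ V, (x ∈ S ↔ ∑ i, a i * g x i = c))) := by
  classical
  obtain ⟨f, hf⟩ := Pool.RP.grid_M3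
  exact ⟨f, fun V hconv hspan hs => hf V hconv hspan hs⟩

end Pool.Agent.Results.MP_9dcace_co.PolynomialGridThreeFacets
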