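import Pool.Agent.Lib.MP_9dcace_lb.F8
import Pool.Agent.Lib.MP_9dcace_co_qlb.Exists

/-!
MP_9dcace_co: some 3-polytopes with `n` vertices need a grid of side of order `n ^ 2`.
-/

set_option autoImplicit false

namespace Pool.Agent.Results.MP_9dcace_co.QuadraticLowerBound

theorem result :
    ∃ c : ℝ, 0 < c ∧ ∀ k : ℕ, 3 ≤ k → ∃ V : Finset (Fin 3 → ℝ),
      V.card = 2 * k + 2 ∧
      (∀ v ∈ V, v ∉ convexHull ℝ ((V : Set (Fin 3 → ℝ)) \ {v})) ∧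
      affineSpan ℝ (V : Set (Fin 3 → ℝ)) = ⊤ ∧
      ∀ N : ℕ, (∃ g : (Fin 3 → ℝ) → (Fin 3 → ℝ),
        Set.InjOn g (V : Set (Fin 3 → ℝ)) ∧
        (∀ v ∈ V, ∀ i : Fin 3, ∃ m : ℕ, g v i = (m : ℝ) ∧ m ≤ N) ∧
        affineSpan ℝ (g '' (V : Set (Fin 3 → ℝ))) = ⊤ ∧
        (∀ v ∈ V, g v ∉ convexHull ℝ (g '' ((V : Set (Fin 3 → ℝ)) \ {v}))) ∧
        ∀ S ⊆ V,
          ((∃ a : Fin 3 → ℝ, ∃ c : ℝ,
              (∀ x ∈ V, ∑ i, a i * x i ≤ c) ∧
              ∀ x ∈ V, (x ∈ S ↔ ∑ i, a i * x i = c)) ↔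
           (∃ a : Fin 3 → ℝ, ∃ c : ℝ,
              (∀ x ∈ V, ∑ i, a i * g x i ≤ c) ∧
              ∀ x ∈ V, (x ∈ S ↔ ∑ i, a i * g x i = c)))) →
        c * (V.card : ℝ) ^ 2 ≤ (N : ℝ) := by
  refine ⟨1 / 10 ^ 8, by norm_num, fun k hk => ?_⟩
  obtain ⟨V, A, B, r, hcard, hconv, hspan, hmem, hAB, hrAB, hinj, hface⟩ :=
    MP_9dcace_qlb.trap_exists k hk
  refine ⟨V, hcard, hconv, hspan, ?_⟩
  rintro N ⟨g, hg, hN, -, -, hiff⟩
  have hb := Pool.Agent.QLB.real_bound (V := V) (A := A) (B := B) (r := r) (M := 2 * k - 1) (by omega)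
    ((hmem A).2 (Or.inl rfl)) ((hmem B).2 (Or.inr (Or.inl rfl)))
    (fun j hj => (hmem (r j)).2 (Or.inr (Or.inr ⟨j, by omega, rfl⟩))) hAB
    (fun j _ => (hrAB j).1) (fun j _ => (hrAB j).2)
    (fun i hi j hj h => by
      have h1 := (hinj i j).1 h
      rwa [Nat.mod_eq_of_lt (by omega), Nat.mod_eq_of_lt (by omega)] at h1)
    (fun j h1 h2 => by
      obtain ⟨a, c, h3, h4⟩ := hface (j - 1)
      refine ⟨a, c, h3, fun x hx => ?_⟩
      rw [h4 x hx]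
      have e1 : j - 1 + 1 = j := by omega
      have e2 : j - 1 + 2 = j + 1 := by omega
      rw [e1, e2]
      have e3 : (if j % 2 = 0 then B else A) = (if j % 2 = 1 then A else B) := by
        rcases Nat.mod_two_eq_zero_or_one j with h | h
        · rw [if_pos h, if_neg (by omega)]
        · rw [if_neg (by omega), if_pos h]
      rw [e3]) hg hN hiff
  have e : ((2 * k - 1 : ℕ) : ℝ) + 3 = (V.card : ℝ) := by
    rw [hcard]
    have : 2 * k - 1 + 3 = 2 * k + 2 := by omega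
    exact_mod_cast this
  rw [e] at hb
  rw [one_div, inv_mul_le_iff₀ (by norm_num)]
  exact hb

end Pool.Agent.Results.MP_9dcace_co.QuadraticLowerBound
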