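import Pool.Agent.Lib.MP_9dcace_rp.Fk

/-!
MP_9dcace_co: every 3-polytope with `n` vertices has a combinatorially equivalent copy with real
coordinates whose size and whose inverse margins are polynomial in `n`: all coordinates are at most
`f n` in absolute value, and for every facet there is an affine equation `a . x = 1` with
`|a i| ≤ f n` which holds at the vertices of the facet while `a . x ≤ 1 - 1 / f n` at all the other
vertices.  The polynomial can be taken to be `(9 n)^1834`.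
-/

set_option autoImplicit false

namespace Pool.Agent.Results.MP_9dcace_co.RealPolynomialMargins

/-- `B` is a face of the polytope with vertex set `V`: the set of the points of `V` on a plane `a . x = c` such that
`a . x <= c` on `V` (for `a = 0` this includes the empty set and `V` itself) -/
def IsFace (V B : Finset (Fin 3 → ℝ)) : Prop :=
  ∃ (a : Fin 3 → ℝ) (c : ℝ), (∀ x ∈ V, ∑ i, a i * x i ≤ c) ∧ ∀ x, x ∈ B ↔ x ∈ V ∧ ∑ i, a i * x i = c

/-- `B` is a facet: a maximal proper face -/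
def IsFacet (V B : Finset (Fin 3 → ℝ)) : Prop :=
  IsFace V B ∧ B ≠ V ∧ ∀ B', IsFace V B' → B ⊆ B' → B' ≠ V → B' = B

theorem result :
    ∃ f : Polynomial ℕ, ∀ V : Finset (Fin 3 → ℝ),
      (∀ v ∈ V, v ∉ convexHull ℝ ((V : Set (Fin 3 → ℝ)) \ {v})) →
      affineSpan ℝ (V : Set (Fin 3 → ℝ)) = ⊤ →
      ∃ g : (Fin 3 → ℝ) → (Fin 3 → ℝ),
        Set.InjOn g (V : Set (Fin 3 → ℝ)) ∧
        (∀ v ∈ V, ∀ i : Fin 3, |g v i| ≤ (f.eval V.card : ℕ)) ∧
        affineSpan ℝ (g '' (V : Set (Fin 3 → ℝ))) = ⊤ ∧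
        (∀ v ∈ V, g v ∉ convexHull ℝ (g '' ((V : Set (Fin 3 → ℝ)) \ {v}))) ∧
        (∀ S ⊆ V,
          ((∃ a : Fin 3 → ℝ, ∃ c : ℝ,
              (∀ x ∈ V, ∑ i, a i * x i ≤ c) ∧
              ∀ x ∈ V, (x ∈ S ↔ ∑ i, a i * x i = c)) ↔
           (∃ a : Fin 3 → ℝ, ∃ c : ℝ,
              (∀ x ∈ V, ∑ i, a i * g x i ≤ c) ∧
              ∀ x ∈ V, (x ∈ S ↔ ∑ i, a i * g x i = c)))) ∧
        ∀ B, IsFacet V B → ∃ a : Fin 3 → ℝ, (∀ i, |a i| ≤ (f.eval V.card : ℕ)) ∧
          (∀ v ∈ B, ∑ i, a i * g v i = 1) ∧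
          ∀ v ∈ V, v ∉ B → ∑ i, a i * g v i ≤ 1 - 1 / ((f.eval V.card : ℕ) : ℝ) := by
  classical
  obtain ⟨f, hf⟩ := Pool.RP.real_margins
  exact ⟨f, fun V hconv hspan => hf V hconv hspan⟩

end Pool.Agent.Results.MP_9dcace_co.RealPolynomialMargins
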